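import Pool.Agent.W420.NS.Stm

/-!
Project NS, part NB: the other end of the edge at a slot.
-/

set_option autoImplicit false

namespace Pool.Agent.W320.NS

open Pool.Agent.W420.NS

/-- at most one edge inside a pair of vertices -/
theorem inner_le (h : S_CNT) (P : Pole) (hD : P.D = []) (hS : SlotOK P) (hB : BigCuts P)
    (h4 : 4 ≤ Fintype.card P.V) (x y : P.V) (hxy : x ≠ y) :
    (P.E.filter fun e => decide (e.1.1 = x ∨ e.1.1 = y) && decide (e.2.1 = x ∨ e.2.1 = y)).length
      ≤ 1 := by
  classical
  set X : P.V → Bool := fun v => decide (v = x ∨ v = y) with hX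
  have h1 := h P hD hS X
  have hc : Fintype.card {v // X v = true} = 2 := by
    rw [Fintype.card_subtype]
    have : (Finset.univ.filter fun v => X v = true) = {x, y} := by
      ext v
      simp [hX]
    rw [this, Finset.card_pair hxy]
  have hc' : 2 ≤ Fintype.card {v // (!X v) = true} := by
    rw [Fintype.card_subtype]
    have : (Finset.univ.filter fun v => (!X v) = true) = Finset.univ \ {x, y} := by
      ext v
      simp [hX]
    rw [this, Finset.card_sdiff_of_subset (Finset.subset_univ _), Finset.card_pair hxy,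
      Finset.card_univ]
    omega
  have s1 : sz X = 2 := by
    unfold sz
    rw [hc]
    rfl
  have s2 : sz (fun v => !X v) = 2 := by
    change min 2 (Fintype.card {v // (!X v) = true}) = 2
    omega
  have h2 := (hB X (by omega) (by omega)).2 (by omega) (by omega)
  rw [hc] at h1
  change (P.E.filter fun e => X e.1.1 && X e.2.1).length ≤ 1
  omega

theorem two_le {α : Type} (l : List α) (a b : α) (ha : a ∈ l) (hb : b ∈ l) (hab : a ≠ b) :
    2 ≤ l.length := by
  have h1 : [a, b].Nodup := by simp [hab]
  have h2 : [a, b] ⊆ l := by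
    intro z hz
    simp only [List.mem_cons, List.not_mem_nil, or_false] at hz
    rcases hz with rfl | rfl
    · exact ha
    · exact hb
  have h3 := (h1.subperm h2).length_le
  simpa using h3

theorem third : ∀ i j : Fin 3, ∃ k, k ≠ i ∧ k ≠ j := by decide

theorem third2 : ∀ i j k m : Fin 3, i ≠ j → k ≠ i → k ≠ j → m ≠ k → m = i ∨ m = j := by decide

theorem x (h : S_CNT) : S_NB := by
  classical
  intro P hD hS hB h4
  have hE : ∀ t, (P.E.flatMap fun e => [e.1, e.2]).count t = 1 := by
    intro t
    have := hS t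
    unfold ends at this
    rw [hD, List.nil_append] at this
    exact this
  have hnd : (P.E.flatMap fun e => [e.1, e.2]).Nodup := by
    rw [List.nodup_iff_count_le_one]
    intro t
    exact (hE t).le
  have hC : ∀ t, ∃ e ∈ P.E, t = e.1 ∨ t = e.2 := by
    intro t
    have h1 : t ∈ P.E.flatMap fun e => [e.1, e.2] := by
      rw [← List.count_pos_iff, hE t]
      exact one_pos
    rw [List.mem_flatMap] at h1
    obtain ⟨e, he, h2⟩ := h1
    exact ⟨e, he, by simpa using h2⟩
  rw [List.nodup_flatMap] at hnd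
  obtain ⟨hA, hdis⟩ := hnd
  have hne : ∀ e ∈ P.E, e.1 ≠ e.2 := by
    intro e he
    have := hA e he
    simpa using this
  have hEN : P.E.Nodup := by
    refine hdis.imp ?_
    intro a b hab hab'
    subst hab'
    exact hab (a := a.1) (by simp) (by simp)
  have hK : ∀ e ∈ P.E, ∀ e' ∈ P.E, ∀ t, (t = e.1 ∨ t = e.2) → (t = e'.1 ∨ t = e'.2) → e = e' := by
    intro e he e' he' t h1 h2
    by_contra hne'
    obtain ⟨i, hi, rfl⟩ := List.getElem_of_mem he
    obtain ⟨j, hj, rfl⟩ := List.getElem_of_mem he'
    rcases lt_trichotomy i j with hij | hij | hij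
    · exact (List.pairwise_iff_getElem.1 hdis i j hi hj hij) (a := t) (by simpa using h1)
        (by simpa using h2)
    · subst hij
      exact hne' rfl
    · exact (List.pairwise_iff_getElem.1 hdis j i hj hi hij) (a := t) (by simpa using h2)
        (by simpa using h1)
  choose ed hed1 hed2 using hC
  let nb : P.V × Fin 3 → P.V × Fin 3 := fun t => if t = (ed t).1 then (ed t).2 else (ed t).1
  have hnb : ∀ e ∈ P.E, nb e.1 = e.2 ∧ nb e.2 = e.1 := by
    intro e he
    have e1 : ed e.1 = e := hK _ (hed1 _) _ he e.1 (hed2 _) (Or.inl rfl)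
    have e2 : ed e.2 = e := hK _ (hed1 _) _ he e.2 (hed2 _) (Or.inr rfl)
    constructor
    · simp only [nb, e1, if_true]
    · simp only [nb, e2]
      rw [if_neg (fun h => hne e he h.symm)]
  have hmem : ∀ t, (t, nb t) ∈ P.E ∨ (nb t, t) ∈ P.E := by
    intro t
    by_cases h1 : t = (ed t).1
    · left
      have : (t, nb t) = ed t := by
        simp only [nb]
        rw [if_pos h1]
        exact Prod.ext h1 rfl
      rw [this]
      exact hed1 t
    · right
      have h2 : t = (ed t).2 := (hed2 t).resolve_left h1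
      have : (nb t, t) = ed t := by
        simp only [nb]
        rw [if_neg h1]
        exact Prod.ext rfl h2
      rw [this]
      exact hed1 t
  have hinv : ∀ t, nb (nb t) = t := by
    intro t
    rcases hmem t with h1 | h1
    · exact (hnb _ h1).2
    · exact (hnb _ h1).1
  have hnt : ∀ t, nb t ≠ t := by
    intro t h1
    rcases hmem t with h2 | h2
    · exact hne _ h2 h1.symm
    · exact hne _ h2 h1
  -- two edges inside a pair
  have hpair : ∀ (x y : P.V) (t t' : P.V × Fin 3), x ≠ y → (t.1 = x ∨ t.1 = y) →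
      ((nb t).1 = x ∨ (nb t).1 = y) → (t'.1 = x ∨ t'.1 = y) →
      ((nb t').1 = x ∨ (nb t').1 = y) → t ≠ t' → t' ≠ nb t → False := by
    intro x y t t' hxy h1 h2 h3 h4' h5 h6
    have h7 := inner_le h P hD hS hB h4 x y hxy
    have key : ∀ s : P.V × Fin 3, (s.1 = x ∨ s.1 = y) → ((nb s).1 = x ∨ (nb s).1 = y) →
        ∃ e ∈ (P.E.filter fun e => decide (e.1.1 = x ∨ e.1.1 = y) &&
          decide (e.2.1 = x ∨ e.2.1 = y)), e = (s, nb s) ∨ e = (nb s, s) := by
      intro s g1 g2
      rcases hmem s with g3 | g3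
      · refine ⟨_, ?_, Or.inl rfl⟩
        rw [List.mem_filter]
        exact ⟨g3, by simp [g1, g2]⟩
      · refine ⟨_, ?_, Or.inr rfl⟩
        rw [List.mem_filter]
        exact ⟨g3, by simp [g1, g2]⟩
    obtain ⟨e, he, he'⟩ := key t h1 h2
    obtain ⟨f, hf, hf'⟩ := key t' h3 h4'
    have hef : e ≠ f := by
      intro hh
      subst hh
      rcases he' with rfl | rfl <;> rcases hf' with h8 | h8 <;>
        rw [Prod.mk.injEq] at h8
      · exact h5 h8.1
      · exact h6 h8.2.symm
      · exact h6 h8.1.symm
      · exact h5 h8.2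
    have := two_le _ e f he hf hef
    omega
  have hloop : ∀ x i, (nb (x, i)).1 ≠ x := by
    intro x i h1
    obtain ⟨j, hj⟩ : ∃ j, nb (x, i) = (x, j) := ⟨(nb (x, i)).2, Prod.ext h1 rfl⟩
    have hij : i ≠ j := by
      rintro rfl
      exact hnt _ hj
    obtain ⟨k, hki, hkj⟩ := third i j
    have hy : (nb (x, k)).1 ≠ x := by
      intro h2
      obtain ⟨m, hm⟩ : ∃ m, nb (x, k) = (x, m) := ⟨(nb (x, k)).2, Prod.ext h2 rfl⟩
      have hmk : m ≠ k := by
        rintro rfl
        exact hnt _ hm
      have hinv1 : nb (x, m) = (x, k) := by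
        rw [← hm]; exact hinv _
      have hinv2 : nb (x, j) = (x, i) := by
        rw [← hj]; exact hinv _
      have hm3 : m = i ∨ m = j := third2 i j k m hij hki hkj hmk
      rcases hm3 with rfl | rfl
      · rw [hj, Prod.mk.injEq] at hinv1
        exact hkj hinv1.2.symm
      · rw [hinv2, Prod.mk.injEq] at hinv1
        exact hki hinv1.2.symm
    refine hpair x (nb (x, k)).1 (x, i) (x, k) hy.symm (Or.inl rfl) (Or.inl h1) (Or.inl rfl)
      (Or.inr rfl) ?_ ?_
    · intro h2
      rw [Prod.mk.injEq] at h2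
      exact hki h2.2.symm
    · rw [hj]
      intro h2
      rw [Prod.mk.injEq] at h2
      exact hkj h2.2
  refine ⟨hEN, nb, hnb, hmem, hloop, ?_⟩
  intro x i j hij
  by_contra hne'
  refine hpair x (nb (x, i)).1 (x, i) (x, j) (hloop x i).symm (Or.inl rfl) (Or.inr rfl) (Or.inl rfl)
    (Or.inr hij.symm) ?_ ?_
  · intro h2
    rw [Prod.mk.injEq] at h2
    exact hne' h2.2
  · intro h2
    exact hloop x i (by rw [← h2])

end Pool.Agent.W320.NS
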